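import Pool.Agent.W347.GE.Root

/-!
# A bound for the heights in finite sets closed for a Hénon recursion
-/

set_option autoImplicit false

open Height NumberField Finset

namespace Pool.Agent.R414.EB

theorem v_int {K : Type} [Field K] [NumberField K] (v : InfinitePlace K) (a : ℤ) :
    v (a : K) = |(a : ℝ)| := by
  rw [← InfinitePlace.norm_embedding_eq v, map_intCast, Complex.norm_intCast]

/-- the height of an element with a given denominator -/
theorem height_le {K : Type} [Field K] [NumberField K] {a : ℤ} (ha0 : a ≠ 0) (x : K)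
    (hint : IsIntegral ℤ ((a : K) * x)) {c : ℝ} (hc : ∀ v : InfinitePlace K, |(a : ℝ)| * v x ≤ c)
    (hac : |(a : ℝ)| ≤ c) : mulHeight₁ x ≤ c ^ Module.finrank ℚ K := by
  have haK : (a : K) ≠ 0 := by exact_mod_cast ha0
  obtain ⟨y, hy⟩ : ∃ y : Fin 2 → 𝓞 K, y = ![⟨(a : K) * x, hint⟩, (a : 𝓞 K)] := ⟨_, rfl⟩
  have hyK : (fun i => ((y i : 𝓞 K) : K)) = (a : K) • ![x, 1] := by
    funext i
    rw [hy]
    fin_cases i
    · show (a : K) * x = (a : K) * x
      rfl
    · show ((a : 𝓞 K) : K) = (a : K) * 1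
      rw [mul_one]
      exact map_intCast _ _
  have hy0 : y ≠ 0 := by
    intro h
    have h1 := congrFun h 1
    rw [hy] at h1
    simp at h1
    exact ha0 h1
  have hyK0 : (fun i => ((y i : 𝓞 K) : K)) ≠ 0 := by
    intro h
    apply hy0
    funext i
    have := congrFun h i
    simpa using this
  have hc0 : 0 ≤ c := (abs_nonneg _).trans hac
  rw [mulHeight₁_eq_mulHeight, ← mulHeight_smul_eq_mulHeight _ haK, ← hyK,
    NumberField.mulHeight_eq hyK0]
  have hfin : ∏ᶠ v : FinitePlace K, ⨆ i, v ((y i : 𝓞 K) : K) ≤ 1 := by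
    have h1 := absNorm_mul_finprod_finitePlace_eq_one hy0
    obtain ⟨A, hA⟩ : ∃ A, A = (Ideal.span (Set.range y)).absNorm := ⟨_, rfl⟩
    obtain ⟨B, hB⟩ : ∃ B, B = ∏ᶠ v : FinitePlace K, ⨆ i, v ((y i : 𝓞 K) : K) := ⟨_, rfl⟩
    rw [← hA, ← hB] at h1
    rw [← hB]
    have h2 : (1 : ℝ) ≤ A := by
      have : A ≠ 0 := by
        rintro h
        rw [h] at h1
        simp at h1
      exact_mod_cast Nat.one_le_iff_ne_zero.2 this
    by_contra h3
    push Not at h3
    nlinarith
  have hfin0 : 0 ≤ ∏ᶠ v : FinitePlace K, ⨆ i, v ((y i : 𝓞 K) : K) :=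
    finprod_nonneg fun v => Real.iSup_nonneg fun i => apply_nonneg v _
  have hinf : ∏ v : InfinitePlace K, (⨆ i, v ((y i : 𝓞 K) : K)) ^ v.mult ≤
      c ^ (Module.finrank ℚ K) := by
    rw [← InfinitePlace.sum_mult_eq, ← Finset.prod_pow_eq_pow_sum]
    refine Finset.prod_le_prod (fun v _ => by
      have : 0 ≤ ⨆ i, v ((y i : 𝓞 K) : K) := Real.iSup_nonneg fun i => apply_nonneg v _
      positivity) fun v _ => ?_
    refine pow_le_pow_left₀ (Real.iSup_nonneg fun i => apply_nonneg v _) ?_ _
    refine ciSup_le fun i => ?_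
    have h1 : v ((y i : 𝓞 K) : K) = v (a : K) * v (![x, 1] i) := by
      have := congrFun hyK i
      rw [this, Pi.smul_apply, smul_eq_mul, map_mul]
    rw [h1, v_int]
    fin_cases i
    · exact hc v
    · simpa using hac
  calc _ ≤ c ^ (Module.finrank ℚ K) * 1 := mul_le_mul hinf hfin hfin0 (by positivity)
    _ = _ := mul_one _

section rec

variable {K : Type} [Field K] [NumberField K] {d H : ℕ} (hd : 2 ≤ d) (b e : ℤ)
  (g : Fin (d + 1) → ℤ) (hb : |b| ≤ H) (he : |e| ≤ H) (hg : ∀ i, |g i| ≤ H)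
  (S : Finset K) (hS : ∀ s ∈ S, ∃ q ∈ S, ∃ p ∈ S, ∑ i, (g i : K) * s ^ (i : ℕ) = b * q + e * p)

include hd hS in
theorem integral {s₀ : K} (hs₀ : s₀ ∈ S) : IsIntegral ℤ ((g (Fin.last d) : K) * s₀) := by
  suffices h : (g (Fin.last d) : K) * s₀ ∈ (algebraMap (𝓞 K) K).range by
    obtain ⟨z, hz⟩ := h
    rw [← hz]
    exact z.2
  refine IsDedekindDomain.HeightOneSpectrum.mem_integers_of_valuation_le_one K _ fun v => ?_
  by_contra hcon
  push Not at hcon
  have hint : ∀ n : ℤ, v.valuation K (n : K) ≤ 1 := by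
    intro n
    have := v.valuation_le_one (K := K) (n : 𝓞 K)
    simpa using this
  obtain ⟨s, hs, hmax⟩ := Finset.exists_max_image S (fun s => v.valuation K s) ⟨s₀, hs₀⟩
  have h1 : 1 < v.valuation K (g (Fin.last d) : K) * v.valuation K s := by
    refine hcon.trans_le ?_
    rw [map_mul]
    exact mul_le_mul_right (hmax s₀ hs₀) _
  have h2 : 1 < v.valuation K s := by
    refine h1.trans_le ?_
    calc v.valuation K (g (Fin.last d) : K) * v.valuation K s ≤ 1 * v.valuation K s :=
          mul_le_mul_left (hint _) _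
      _ = v.valuation K s := one_mul _
  have hpow : ∀ i, i ≤ d - 1 → v.valuation K s ^ i ≤ v.valuation K s ^ (d - 1) := fun i hi =>
    pow_le_pow_right₀ h2.le hi
  obtain ⟨q, hq, p, hp, hrec⟩ := hS s hs
  rw [Fin.sum_univ_castSucc] at hrec
  have h3 : (g (Fin.last d) : K) * s ^ d =
      (b * q + e * p) - ∑ i : Fin d, (g i.castSucc : K) * s ^ (i : ℕ) := by
    rw [← hrec]
    simp
  have h4 : v.valuation K ((g (Fin.last d) : K) * s ^ d) ≤ v.valuation K s ^ (d - 1) := by
    rw [h3]
    refine (v.valuation K).map_sub_le ?_ ?_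
    · refine Valuation.map_add_le _ ?_ ?_
      · rw [map_mul]
        calc v.valuation K (b : K) * v.valuation K q ≤ 1 * v.valuation K s :=
              mul_le_mul' (hint _) (hmax q hq)
          _ = v.valuation K s ^ 1 := by rw [one_mul, pow_one]
          _ ≤ _ := hpow 1 (by omega)
      · rw [map_mul]
        calc v.valuation K (e : K) * v.valuation K p ≤ 1 * v.valuation K s :=
              mul_le_mul' (hint _) (hmax p hp)
          _ = v.valuation K s ^ 1 := by rw [one_mul, pow_one]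
          _ ≤ _ := hpow 1 (by omega)
    · refine Valuation.map_sum_le _ fun i _ => ?_
      rw [map_mul, map_pow]
      calc v.valuation K (g i.castSucc : K) * v.valuation K s ^ (i : ℕ) ≤
            1 * v.valuation K s ^ (d - 1) :=
            mul_le_mul' (hint _) (hpow i (by have := i.2; omega))
        _ = _ := one_mul _
  have h5 : v.valuation K ((g (Fin.last d) : K) * s ^ d) =
      (v.valuation K (g (Fin.last d) : K) * v.valuation K s) * v.valuation K s ^ (d - 1) := by
    rw [map_mul, map_pow, mul_assoc, ← pow_succ']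
    congr 2
    omega
  rw [h5] at h4
  have h6 : 0 < v.valuation K s ^ (d - 1) := pow_pos (zero_lt_one.trans h2) _
  have h7 : 1 * v.valuation K s ^ (d - 1) <
      (v.valuation K (g (Fin.last d) : K) * v.valuation K s) * v.valuation K s ^ (d - 1) :=
    mul_lt_mul_of_pos_right h1 h6
  rw [one_mul] at h7
  exact absurd h4 (not_le.mpr h7)

include hd hb he hg hS in
theorem arch (v : InfinitePlace K) {s₀ : K} (hs₀ : s₀ ∈ S) :
    |(g (Fin.last d) : ℝ)| * v s₀ ≤ (d + 2) * H := by
  obtain ⟨s, hs, hmax⟩ := Finset.exists_max_image S (fun s => v s) ⟨s₀, hs₀⟩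
  have hH : (0 : ℝ) ≤ H := Nat.cast_nonneg _
  have hbR : |(b : ℝ)| ≤ H := by exact_mod_cast hb
  have heR : |(e : ℝ)| ≤ H := by exact_mod_cast he
  have hgR : ∀ i, |(g i : ℝ)| ≤ H := fun i => by exact_mod_cast hg i
  have h1 : |(g (Fin.last d) : ℝ)| * v s₀ ≤ |(g (Fin.last d) : ℝ)| * v s :=
    mul_le_mul_of_nonneg_left (hmax s₀ hs₀) (abs_nonneg _)
  refine h1.trans ?_
  rcases le_or_gt (v s) 1 with h2 | h2
  · calc |(g (Fin.last d) : ℝ)| * v s ≤ H * 1 :=
          mul_le_mul (hgR _) h2 (apply_nonneg v _) hH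
      _ ≤ (d + 2) * H := by
          have : (0 : ℝ) ≤ d := Nat.cast_nonneg _
          nlinarith
  · obtain ⟨q, hq, p, hp, hrec⟩ := hS s hs
    rw [Fin.sum_univ_castSucc] at hrec
    have h3 : (g (Fin.last d) : K) * s ^ d =
        (b * q + e * p) - ∑ i : Fin d, (g i.castSucc : K) * s ^ (i : ℕ) := by
      rw [← hrec]
      simp
    have hpow : ∀ i, i ≤ d - 1 → v s ^ i ≤ v s ^ (d - 1) := fun i hi =>
      pow_le_pow_right₀ h2.le hi
    have h4 : v ((g (Fin.last d) : K) * s ^ d) ≤ (d + 2) * H * v s ^ (d - 1) := by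
      rw [h3]
      have e1 : v ((b : K) * q) ≤ H * v s ^ (d - 1) := by
        rw [map_mul, v_int]
        refine mul_le_mul hbR ((hmax q hq).trans ?_) (apply_nonneg v _) hH
        simpa using hpow 1 (by omega)
      have e2 : v ((e : K) * p) ≤ H * v s ^ (d - 1) := by
        rw [map_mul, v_int]
        refine mul_le_mul heR ((hmax p hp).trans ?_) (apply_nonneg v _) hH
        simpa using hpow 1 (by omega)
      have e3 : v (∑ i : Fin d, (g i.castSucc : K) * s ^ (i : ℕ)) ≤ d * (H * v s ^ (d - 1)) := by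
        calc v (∑ i : Fin d, (g i.castSucc : K) * s ^ (i : ℕ)) ≤
              ∑ i : Fin d, v ((g i.castSucc : K) * s ^ (i : ℕ)) := v.1.sum_le _ _
          _ ≤ ∑ _i : Fin d, H * v s ^ (d - 1) := by
              refine Finset.sum_le_sum fun i _ => ?_
              rw [map_mul, map_pow, v_int]
              exact mul_le_mul (hgR _) (hpow i (by have := i.2; omega))
                (pow_nonneg (apply_nonneg v _) _) hH
          _ = _ := by rw [Finset.sum_const, Finset.card_univ, Fintype.card_fin, nsmul_eq_mul]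
      have e4 : v ((b * q + e * p) - ∑ i : Fin d, (g i.castSucc : K) * s ^ (i : ℕ)) ≤
          v ((b : K) * q + e * p) + v (∑ i : Fin d, (g i.castSucc : K) * s ^ (i : ℕ)) := by
        have := v.1.sub_le_add ((b : K) * q + e * p) (∑ i : Fin d, (g i.castSucc : K) * s ^ (i : ℕ))
        exact this
      have e5 : v ((b : K) * q + e * p) ≤ v ((b : K) * q) + v ((e : K) * p) := v.1.add_le _ _
      linarith
    have h5 : v ((g (Fin.last d) : K) * s ^ d) =
        (|(g (Fin.last d) : ℝ)| * v s) * v s ^ (d - 1) := by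
      rw [map_mul, map_pow, v_int, mul_assoc, ← pow_succ']
      congr 2
      omega
    rw [h5] at h4
    exact le_of_mul_le_mul_right h4 (pow_pos (zero_lt_one.trans h2) _)

include hd hb he hg hS in
/-- the bound for the heights -/
theorem apriori (hlead : g (Fin.last d) ≠ 0) {s : K} (hs : s ∈ S) :
    mulHeight₁ s ≤ ((d + 2) * H : ℝ) ^ Module.finrank ℚ K := by
  refine height_le hlead s (integral hd b e g S hS hs)
    (fun v => arch hd b e g hb he hg S hS v hs) ?_
  have h1 : |(g (Fin.last d) : ℝ)| ≤ H := by exact_mod_cast hg (Fin.last d)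
  have h2 : (0 : ℝ) ≤ d := Nat.cast_nonneg _
  have h3 : (0 : ℝ) ≤ H := Nat.cast_nonneg _
  nlinarith

end rec

end Pool.Agent.R414.EB
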