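import Pool.Agent.R414.EA.Gain
import Pool.Agent.R414.EA.Bd
import Pool.Agent.R414.EB.Ht

/-!
# Counting Hénon maps with prescribed values
-/

set_option autoImplicit false

open Finset Height NumberField
open Pool.Agent.W276.GE (S_root S_pts)
open Pool.Agent.R414.EA (nz1 one_count shells)

noncomputable section

namespace Pool.Agent.R414.EB

/-- the coefficients of a Hénon map `(x, y) ↦ (y, (F(y) - e x) / b)` -/
abbrev Vec (d : ℕ) : Type := ℤ × ℤ × (Fin (d + 1) → ℤ)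

/-- the coefficients of absolute value at most `H` -/
def vbox (d H : ℕ) : Finset (Vec d) :=
  Finset.Icc (-(H : ℤ)) H ×ˢ Finset.Icc (-(H : ℤ)) H ×ˢ Fintype.piFinset fun _ => Finset.Icc (-(H : ℤ)) H

theorem mem_vbox {d H : ℕ} {v : Vec d} :
    v ∈ vbox d H ↔ |v.1| ≤ H ∧ |v.2.1| ≤ H ∧ ∀ i, |v.2.2 i| ≤ H := by
  simp only [vbox, Finset.mem_product, Finset.mem_Icc, Fintype.mem_piFinset, abs_le]

/-- the recursion at the point `x` -/
def Rec {R : Type} [CommRing R] {d : ℕ} (v : Vec d) (x q p : R) : Prop :=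
  ∑ k, (v.2.2 k : R) * x ^ (k : ℕ) = v.1 * q + v.2.1 * p

theorem nz1_finite {ι : Type} (d T : ℕ) (x : ι → ℂ) :
    {h : Fin (d + 1) → ℤ | (∀ k, |h k| ≤ T) ∧ ∀ i, ∑ k, (h k : ℂ) * x i ^ (k : ℕ) = 0}.Finite := by
  refine (Finset.finite_toSet
    (Fintype.piFinset fun _ : Fin (d + 1) => Finset.Icc (-(T : ℤ)) T)).subset ?_
  rintro g ⟨hg, -⟩
  rw [Finset.mem_coe, Fintype.mem_piFinset]
  intro k
  rw [Finset.mem_Icc]
  exact abs_le.mp (hg k)

theorem count_fib {ι T : Type} [DecidableEq T] {d H : ℕ} (x q p : ι → ℂ) (s : Finset (Vec d))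
    (hs : s ⊆ vbox d H) (hr : ∀ v ∈ s, ∀ i, Rec v (x i) (q i) (p i)) (f : Vec d → T) (t : Finset T)
    (ht : ∀ v ∈ s, f v ∈ t) (hf : ∀ v ∈ s, ∀ v' ∈ s, f v = f v' → v.1 = v'.1 ∧ v.2.1 = v'.2.1) :
    s.card ≤ nz1 d (2 * H) x * t.card := by
  classical
  refine Finset.card_le_mul_card_image_of_maps_to ht _ fun a _ => ?_
  rcases Finset.eq_empty_or_nonempty (s.filter fun v => f v = a) with h | ⟨v₀, hv₀⟩
  · rw [h, Finset.card_empty]
    exact Nat.zero_le _
  · rw [Finset.mem_filter] at hv₀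
    rw [nz1, ← Set.ncard_coe_finset]
    have hbe : ∀ v ∈ s.filter (fun v => f v = a), v.1 = v₀.1 ∧ v.2.1 = v₀.2.1 := by
      intro v hv
      rw [Finset.mem_filter] at hv
      exact hf v hv.1 v₀ hv₀.1 (hv.2.trans hv₀.2.symm)
    refine Set.ncard_le_ncard_of_injOn (fun v => v.2.2 - v₀.2.2) ?_ ?_ (nz1_finite _ _ _)
    · intro v hv
      obtain ⟨h1, h2⟩ := hbe v hv
      rw [Finset.mem_coe, Finset.mem_filter] at hv
      refine ⟨fun k => ?_, fun i => ?_⟩
      · have e1 := (mem_vbox.mp (hs hv.1)).2.2 k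
        have e2 := (mem_vbox.mp (hs hv₀.1)).2.2 k
        rw [Pi.sub_apply]
        push_cast
        have := abs_sub (v.2.2 k) (v₀.2.2 k)
        linarith
      · have e1 := hr v hv.1 i
        have e2 := hr v₀ hv₀.1 i
        unfold Rec at e1 e2
        simp only [Pi.sub_apply, Int.cast_sub, sub_mul, Finset.sum_sub_distrib]
        rw [e1, e2, h1, h2, sub_self]
    · intro v hv v' hv' heq
      obtain ⟨h1, h2⟩ := hbe v hv
      obtain ⟨h3, h4⟩ := hbe v' hv'
      have h5 := sub_left_injective heq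
      exact Prod.ext (h1.trans h3.symm) (Prod.ext (h2.trans h4.symm) h5)

/-- the gain in one variable -/
theorem gain1 (hroot : S_root) (D d m B : ℕ) (hD : 1 ≤ D) (hd : m + 2 * D * B ≤ d + 1) :
    ∃ C : ℝ, 0 < C ∧ ∀ (K : Type) [Field K] [NumberField K], Module.finrank ℚ K ≤ D →
      ∀ (φ : K →+* ℂ) (x : Fin m → K), Function.Injective x → ∀ i₀, ∀ H : ℕ, 1 ≤ H →
      mulHeight₁ (x i₀) ≤ ((d + 2) * H : ℝ) ^ D →
      (nz1 d (2 * H) (fun i => φ (x i)) : ℝ) * mulHeight₁ (x i₀) ^ B ≤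
        C * (H : ℝ) ^ (d + 1 - m) := by
  refine ⟨(16 * (d + 1)) ^ (d + 1 - m), by positivity, ?_⟩
  intro K _ _ hK φ x hx i₀ H hH hX
  have hHR : (1 : ℝ) ≤ H := by exact_mod_cast hH
  have hdR : (0 : ℝ) ≤ d := Nat.cast_nonneg _
  obtain ⟨R, hR⟩ : ∃ R, R = mulHeight₁ (x i₀) := ⟨_, rfl⟩
  rw [← hR] at hX ⊢
  have hR1 : 1 ≤ R := by rw [hR]; exact one_le_mulHeight₁ _
  have hR0 : 0 < R := by linarith
  have he0 : 2 * D ≠ 0 := by omega
  obtain ⟨r, hr⟩ : ∃ r : ℝ, r = R ^ (1 / ((2 * D : ℕ) : ℝ)) := ⟨_, rfl⟩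
  have hr1 : 1 ≤ r := by
    rw [hr]
    exact Real.one_le_rpow hR1 (by positivity)
  have hr0 : 0 < r := by linarith
  have hre : r ^ (2 * D) = R := by
    rw [hr, ← Real.rpow_natCast, ← Real.rpow_mul hR0.le, one_div_mul_cancel, Real.rpow_one]
    exact_mod_cast he0
  have hr2 : r ^ 2 ≤ (d + 2) * H := by
    have h1 : (r ^ 2) ^ D ≤ ((d + 2) * H : ℝ) ^ D := by rw [← pow_mul, hre]; exact hX
    exact le_of_pow_le_pow_left₀ (by omega) (by positivity) h1
  obtain ⟨w, hw⟩ : ∃ w : ℕ, w = ⌈r / (2 * (d + 1))⌉₊ := ⟨_, rfl⟩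
  have hden : (0 : ℝ) < 2 * (d + 1) := by positivity
  have hw1 : 1 ≤ w := by
    rw [hw, Nat.one_le_ceil_iff]
    positivity
  have hwr : r ≤ (2 * (d + 1)) * w := by
    have h1 := Nat.le_ceil (r / (2 * (d + 1)))
    rw [← hw, div_le_iff₀ hden] at h1
    linarith
  have hwlt : (w : ℝ) - 1 < r / (2 * (d + 1)) := by
    have := Nat.ceil_lt_add_one (show 0 ≤ r / (2 * (d + 1)) by positivity)
    rw [← hw] at this
    linarith
  have hw2H : w ≤ 2 * H := by
    have h1 : r / (2 * (d + 1)) ≤ H := by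
      rw [div_le_iff₀ hden]
      nlinarith
    have h2 : (w : ℝ) < H + 1 := by linarith
    have h3 : w < H + 1 := by exact_mod_cast h2
    omega
  have hno : ∀ h : Fin (d + 1) → ℤ, (∀ k, |(h k : ℝ)| ≤ (d + 1) * ((w : ℝ) - 1)) →
      (∀ i, ∑ k, (h k : ℂ) * φ (x i) ^ (k : ℕ) = 0) → h = 0 := by
    intro h hh hz
    by_contra hne
    obtain ⟨Z, hZ⟩ : ∃ Z : ℕ, Z = (d + 1) * (w - 1) := ⟨_, rfl⟩
    have hZR : (Z : ℝ) = (d + 1) * ((w : ℝ) - 1) := by
      rw [hZ]
      push_cast [Nat.cast_sub hw1]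
      ring
    have hbZ : ∀ k, |h k| ≤ Z := by
      intro k
      have := hh k
      rw [← hZR] at this
      exact_mod_cast this
    have hZ1 : 1 ≤ Z := by
      by_contra hZ0
      have hZ0' : Z = 0 := by omega
      apply hne
      funext k
      have := hbZ k
      rw [hZ0', Nat.cast_zero] at this
      exact abs_eq_zero.mp (le_antisymm this (abs_nonneg _))
    have hZR1 : (1 : ℝ) ≤ Z := by exact_mod_cast hZ1
    have hzK : ∑ k, (h k : K) * x i₀ ^ (k : ℕ) = 0 := by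
      apply φ.injective
      rw [map_zero, map_sum, ← hz i₀]
      exact Finset.sum_congr rfl fun k _ => by rw [map_mul, map_pow, map_intCast]
    have h1 := hroot K d Z h (x i₀) hZ1 hne hbZ hzK
    have h2 : R ≤ (2 * (Z : ℝ) ^ 2) ^ D := by
      rw [hR]
      refine h1.trans (pow_le_pow_right₀ ?_ hK)
      nlinarith
    have h3 : (Z : ℝ) < r / 2 := by
      rw [hZR]
      calc (d + 1) * ((w : ℝ) - 1) < (d + 1) * (r / (2 * (d + 1))) := by gcongr
        _ = r / 2 := by field_simp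
    have h4 : 2 * (Z : ℝ) ^ 2 < r ^ 2 := by nlinarith
    have h5 : (2 * (Z : ℝ) ^ 2) ^ D < (r ^ 2) ^ D :=
      pow_lt_pow_left₀ h4 (by positivity) (by omega)
    rw [← pow_mul, hre] at h5
    linarith
  have hm : m ≤ d + 1 := by omega
  have h1 := one_count (fun i => φ (x i)) (fun i j h => hx (φ.injective h))
    (by rwa [Fintype.card_fin]) hw1 hw2H hno
  rw [Fintype.card_fin] at h1
  have hw0 : (0 : ℝ) < w := by exact_mod_cast hw1
  have h2 : R ^ B ≤ ((2 * (d + 1)) * w) ^ (d + 1 - m) := by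
    calc R ^ B = r ^ (2 * D * B) := by rw [← hre, ← pow_mul]
      _ ≤ r ^ (d + 1 - m) := pow_le_pow_right₀ hr1 (by omega)
      _ ≤ _ := pow_le_pow_left₀ hr0.le hwr _
  calc (nz1 d (2 * H) (fun i => φ (x i)) : ℝ) * R ^ B
      ≤ (4 * ((2 * H : ℕ) : ℝ) / w) ^ (d + 1 - m) * ((2 * (d + 1)) * w) ^ (d + 1 - m) :=
        mul_le_mul h1 h2 (by positivity) (by positivity)
    _ = (16 * (d + 1)) ^ (d + 1 - m) * (H : ℝ) ^ (d + 1 - m) := by
        rw [← mul_pow, ← mul_pow]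
        congr 1
        push_cast
        field_simp
        ring

/-- the union bound -/
theorem union_bound {τ V : Type} [Fintype τ] [DecidableEq τ] [DecidableEq V] (A : Finset ℂ)
    (W : Set V) (S : (τ → ℂ) → Finset V) {R : ℝ} (hR : 0 ≤ R)
    (hcov : ∀ v ∈ W, ∃ t : τ → ℂ, (∀ i, t i ∈ A) ∧ v ∈ S t ∧ ((S t).card : ℝ) ≤ R) :
    (W.ncard : ℝ) ≤ (A.card : ℝ) ^ Fintype.card τ * R := by
  classical
  let P : Finset (τ → ℂ) := (Fintype.piFinset fun _ => A).filter fun t => ((S t).card : ℝ) ≤ R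
  have hsub : W ⊆ ((P.biUnion S : Finset V) : Set V) := by
    intro v hv
    obtain ⟨t, ht, hvt, hc⟩ := hcov v hv
    rw [Finset.mem_coe, Finset.mem_biUnion]
    exact ⟨t, Finset.mem_filter.mpr ⟨Fintype.mem_piFinset.mpr ht, hc⟩, hvt⟩
  have hP : (P.card : ℝ) ≤ (A.card : ℝ) ^ Fintype.card τ := by
    have h1 : P.card ≤ A.card ^ Fintype.card τ := by
      refine (Finset.card_filter_le _ _).trans ?_
      rw [Fintype.card_piFinset, Finset.prod_const, Finset.card_univ]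
    exact_mod_cast h1
  calc (W.ncard : ℝ) ≤ ((P.biUnion S).card : ℝ) := by
        have := Set.ncard_le_ncard hsub (Finset.finite_toSet _)
        rw [Set.ncard_coe_finset] at this
        exact_mod_cast this
    _ ≤ ∑ t ∈ P, ((S t).card : ℝ) := by exact_mod_cast Finset.card_biUnion_le
    _ ≤ ∑ _t ∈ P, R := Finset.sum_le_sum fun t ht => (Finset.mem_filter.mp ht).2
    _ = P.card * R := by rw [Finset.sum_const, nsmul_eq_mul]
    _ ≤ _ := mul_le_mul_of_nonneg_right hP hR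

/-- There are `m` different elements, with the recursion and bounded heights; if `ex` holds then `e`
is determined by `b`. -/
def Case (D m κ : ℕ) (ex : Prop) {d : ℕ} (H : ℕ) (v : Vec d) : Prop :=
  ∃ (K : Type) (_ : Field K) (_ : NumberField K), Module.finrank ℚ K ≤ D ∧
    ∃ x q p : Fin m → K, Function.Injective x ∧ (∀ i, Rec v (x i) (q i) (p i)) ∧
      ∃ i₀, (∀ i, mulHeight₁ (x i) ≤ mulHeight₁ (x i₀) ∧ mulHeight₁ (q i) ≤ mulHeight₁ (x i₀) ∧
          mulHeight₁ (p i) ≤ mulHeight₁ (x i₀)) ∧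
        (2 : ℝ) ^ κ ≤ mulHeight₁ (x i₀) ∧ mulHeight₁ (x i₀) ≤ 2 ^ (κ + 1) ∧
        mulHeight₁ (x i₀) ≤ ((d + 2) * H : ℝ) ^ D ∧
        ∃ y : Fin 4 → K, (∀ j, mulHeight₁ (y j) ≤ mulHeight₁ (x i₀)) ∧
          (ex → y 0 ≠ y 1 ∧ (v.2.1 : K) * (y 0 - y 1) = v.1 * (y 2 - y 3))

theorem case_count (hroot : S_root) {D m d c : ℕ} (hD : 1 ≤ D)
    (hd : m + 2 * D * (c * (3 * m + 4) + 1) ≤ d + 1) {C₂ : ℝ} (ex : Prop) [Decidable ex] :
    ∃ C : ℝ, 0 ≤ C ∧ ∀ H : ℕ, 1 ≤ H → ∀ κ : ℕ, ∀ A : Finset ℂ,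
      (A.card : ℝ) ≤ C₂ * (2 ^ (κ + 1)) ^ c →
      (∀ (K : Type) [Field K] [NumberField K], Module.finrank ℚ K ≤ D →
        ∀ x : K, mulHeight₁ x ≤ 2 ^ (κ + 1) → ∀ φ : K →+* ℂ, φ x ∈ A) →
      (({v | v ∈ vbox d H ∧ Case D m κ ex H v} : Set (Vec d)).ncard : ℝ) ≤
        C * (H : ℝ) ^ ((if ex then 1 else 2) + (d + 1 - m)) * (1 / 2) ^ κ := by
  classical
  obtain ⟨C₁, hC₁, h₁⟩ := gain1 hroot D d m (c * (3 * m + 4) + 1) hD hd
  set B := c * (3 * m + 4) + 1 with hB
  refine ⟨|C₂ * 2 ^ c| ^ (3 * m + 4) * (9 * C₁), by positivity, ?_⟩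
  intro H hH κ A hA1 hA
  have hHR : (1 : ℝ) ≤ H := by exact_mod_cast hH
  have hu1 : (1 : ℝ) ≤ 2 ^ κ := one_le_pow₀ (by norm_num)
  set ε : ℕ := if ex then 1 else 2 with hε
  have hε2 : ε ≤ 2 := by rw [hε]; split_ifs <;> omega
  let τ : Type := (Fin m × Fin 3) ⊕ Fin 4
  have hτ : Fintype.card τ = 3 * m + 4 := by
    simp only [τ, Fintype.card_sum, Fintype.card_prod, Fintype.card_fin]
    ring
  let S : (τ → ℂ) → Finset (Vec d) := fun t => (vbox d H).filter fun v =>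
    (∀ i, Rec v (t (Sum.inl (i, 0))) (t (Sum.inl (i, 1))) (t (Sum.inl (i, 2)))) ∧
      (ex → t (Sum.inr 0) ≠ t (Sum.inr 1) ∧
        (v.2.1 : ℂ) * (t (Sum.inr 0) - t (Sum.inr 1)) = v.1 * (t (Sum.inr 2) - t (Sum.inr 3)))
  set R : ℝ := (9 * C₁) * (H : ℝ) ^ (ε + (d + 1 - m)) / (2 ^ κ) ^ B with hR
  have hS : ∀ t : τ → ℂ, (S t).card ≤ (2 * H + 1) ^ ε *
      nz1 d (2 * H) (fun i => t (Sum.inl (i, 0))) := by
    intro t
    have hIcc : (Finset.Icc (-(H : ℤ)) H).card = 2 * H + 1 := by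
      rw [Int.card_Icc]
      omega
    by_cases hex : ex
    · have h1 := count_fib (fun i => t (Sum.inl (i, 0))) (fun i => t (Sum.inl (i, 1)))
        (fun i => t (Sum.inl (i, 2))) (S t) (Finset.filter_subset _ _)
        (fun v hv => (Finset.mem_filter.mp hv).2.1) (fun v => v.1) (Finset.Icc (-(H : ℤ)) H)
        (fun v hv => by
          rw [Finset.mem_Icc]
          exact abs_le.mp (mem_vbox.mp (Finset.mem_filter.mp hv).1).1) (by
          intro v hv v' hv' heq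
          refine ⟨heq, ?_⟩
          obtain ⟨h0, h2⟩ := (Finset.mem_filter.mp hv).2.2 hex
          obtain ⟨-, h3⟩ := (Finset.mem_filter.mp hv').2.2 hex
          have heq' : v.1 = v'.1 := heq
          rw [heq', ← h3] at h2
          have h4 := mul_right_cancel₀ (sub_ne_zero.mpr h0) h2
          exact_mod_cast h4)
      rw [hIcc, mul_comm] at h1
      simpa [hε, hex] using h1
    · have h1 := count_fib (fun i => t (Sum.inl (i, 0))) (fun i => t (Sum.inl (i, 1)))
        (fun i => t (Sum.inl (i, 2))) (S t) (Finset.filter_subset _ _)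
        (fun v hv => (Finset.mem_filter.mp hv).2.1) (fun v => (v.1, v.2.1))
        (Finset.Icc (-(H : ℤ)) H ×ˢ Finset.Icc (-(H : ℤ)) H)
        (fun v hv => by
          have h2 := mem_vbox.mp (Finset.mem_filter.mp hv).1
          rw [Finset.mem_product, Finset.mem_Icc, Finset.mem_Icc]
          exact ⟨abs_le.mp h2.1, abs_le.mp h2.2.1⟩) (by
          intro v _ v' _ heq
          exact Prod.mk.inj heq)
      rw [Finset.card_product, hIcc, mul_comm, ← sq] at h1
      simpa [hε, hex] using h1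
  have hmain := union_bound (τ := τ) A {v | v ∈ vbox d H ∧ Case D m κ ex H v} S
    (R := R) (by positivity) (by
      rintro v ⟨hv, K, i1, i2, hK, x, q, p, hx, hrec, i₀, hht, hk1, hk2, hap, y, hy, hyex⟩
      let φ : K →+* ℂ := Classical.arbitrary _
      refine ⟨fun s => match s with
        | Sum.inl (i, 0) => φ (x i)
        | Sum.inl (i, 1) => φ (q i)
        | Sum.inl (i, 2) => φ (p i)
        | Sum.inr j => φ (y j), ?_, ?_, ?_⟩
      · rintro (⟨i, j⟩ | j)
        · fin_cases j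
          · exact hA K hK _ ((hht i).1.trans hk2) φ
          · exact hA K hK _ ((hht i).2.1.trans hk2) φ
          · exact hA K hK _ ((hht i).2.2.trans hk2) φ
        · exact hA K hK _ ((hy j).trans hk2) φ
      · rw [Finset.mem_filter]
        refine ⟨hv, fun i => ?_, fun hex => ⟨fun h => (hyex hex).1 (φ.injective h), ?_⟩⟩
        · have h1 := congrArg φ (hrec i)
          simp only [map_sum, map_mul, map_pow, map_add, map_intCast] at h1
          exact h1
        · have h1 := congrArg φ (hyex hex).2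
          simp only [map_sub, map_mul, map_intCast] at h1
          exact h1
      · have h1 := hS (fun s => match s with
          | Sum.inl (i, 0) => φ (x i)
          | Sum.inl (i, 1) => φ (q i)
          | Sum.inl (i, 2) => φ (p i)
          | Sum.inr j => φ (y j))
        have h2 := h₁ K hK φ x hx i₀ H hH hap
        simp only at h1
        set nz := nz1 d (2 * H) (fun i => φ (x i)) with hnz
        have h3 : (nz : ℝ) * (2 ^ κ) ^ B ≤ C₁ * (H : ℝ) ^ (d + 1 - m) := by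
          refine le_trans ?_ h2
          gcongr
        have h4 : ((2 * H + 1 : ℕ) : ℝ) ^ ε ≤ 9 * (H : ℝ) ^ ε := by
          calc ((2 * H + 1 : ℕ) : ℝ) ^ ε ≤ (3 * (H : ℝ)) ^ ε := by
                push_cast
                gcongr
                linarith
            _ = 3 ^ ε * (H : ℝ) ^ ε := mul_pow _ _ _
            _ ≤ 9 * (H : ℝ) ^ ε := by
                gcongr
                calc (3 : ℝ) ^ ε ≤ 3 ^ 2 := pow_le_pow_right₀ (by norm_num) hε2
                  _ = 9 := by norm_num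
        rw [hR, le_div_iff₀ (by positivity)]
        have h5 : ((S (fun s => match s with
          | Sum.inl (i, 0) => φ (x i)
          | Sum.inl (i, 1) => φ (q i)
          | Sum.inl (i, 2) => φ (p i)
          | Sum.inr j => φ (y j))).card : ℝ) ≤ ((2 * H + 1 : ℕ) : ℝ) ^ ε * nz := by
          exact_mod_cast h1
        calc _ ≤ (((2 * H + 1 : ℕ) : ℝ) ^ ε * nz) * (2 ^ κ) ^ B :=
              mul_le_mul_of_nonneg_right h5 (by positivity)
          _ = ((2 * H + 1 : ℕ) : ℝ) ^ ε * ((nz : ℝ) * (2 ^ κ) ^ B) := by ring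
          _ ≤ (9 * (H : ℝ) ^ ε) * (C₁ * (H : ℝ) ^ (d + 1 - m)) :=
              mul_le_mul h4 h3 (by positivity) (by positivity)
          _ = _ := by rw [pow_add]; ring)
  rw [hτ] at hmain
  refine hmain.trans ?_
  set u : ℝ := 2 ^ κ with hu
  have hu0 : 0 < u := by linarith
  have e1 : C₂ * (2 ^ (κ + 1)) ^ c = (C₂ * 2 ^ c) * u ^ c := by
    rw [hu, pow_succ, mul_pow]; ring
  have e2 : (A.card : ℝ) ≤ |C₂ * 2 ^ c| * u ^ c := by
    refine hA1.trans ?_
    rw [e1]
    exact mul_le_mul_of_nonneg_right (le_abs_self _) (by positivity)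
  have e3 : (1 / 2 : ℝ) ^ κ = 1 / u := by rw [one_div_pow]
  calc (A.card : ℝ) ^ (3 * m + 4) * R ≤ (|C₂ * 2 ^ c| * u ^ c) ^ (3 * m + 4) * R := by gcongr
    _ = _ := by
        rw [hR, hB, e3, mul_pow, ← pow_mul u, pow_succ]
        have : u ^ (c * (3 * m + 4)) ≠ 0 := (pow_pos hu0 _).ne'
        field_simp
        ring

end Pool.Agent.R414.EB
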