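import Pool.Agent.R414.EB.Cnt
import Pool.Agent.W32.GE.Pts

/-!
# Periodic points of Hénon maps: the upper bound
-/

set_option autoImplicit false

open Finset Height NumberField
open Pool.Agent.W276.GE (S_root S_pts)
open Pool.Agent.R414.EA (shells)

noncomputable section

namespace Pool.Agent.R414.EB

/-- the Hénon map `(x, y) ↦ (y, (F(y) - e x) / b)` -/
def hen (K : Type) [Field K] {d : ℕ} (v : Vec d) (P : K × K) : K × K :=
  (P.2, ((∑ i, (v.2.2 i : K) * P.2 ^ (i : ℕ)) - v.2.1 * P.1) / v.1)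

/-- the conditions for a Hénon map of degree `d` -/
def IsHen {d : ℕ} (v : Vec d) : Prop := v.1 ≠ 0 ∧ v.2.1 ≠ 0 ∧ v.2.2 (Fin.last d) ≠ 0

/-- Over some number field of degree at most `D` there are `k` different periodic points. -/
def PerK {d : ℕ} (D k : ℕ) (v : Vec d) : Prop :=
  ∃ (K : Type) (_ : Field K) (_ : NumberField K), Module.finrank ℚ K ≤ D ∧
    ∃ P : Fin k → K × K, Function.Injective P ∧ ∀ i, ∃ n : ℕ, 1 ≤ n ∧ (hen K v)^[n] (P i) = P i

/-- a finite set of points closed for the map and its inverse -/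
theorem exists_closed {K : Type} [Field K] {d k : ℕ} (v : Vec d) (P : Fin k → K × K)
    (hP : Function.Injective P) (hper : ∀ i, ∃ n : ℕ, 1 ≤ n ∧ (hen K v)^[n] (P i) = P i) :
    ∃ O : Finset (K × K), k ≤ O.card ∧ (∀ Q ∈ O, hen K v Q ∈ O) ∧
      ∀ Q ∈ O, ∃ Q' ∈ O, hen K v Q' = Q := by
  classical
  choose n hn hnP using hper
  let O : Finset (K × K) := Finset.univ.biUnion fun i : Fin k =>
    (Finset.range (n i)).image fun t => (hen K v)^[t] (P i)
  have hO : ∀ Q, Q ∈ O ↔ ∃ i, ∃ t < n i, (hen K v)^[t] (P i) = Q := by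
    intro Q
    simp [O]
  refine ⟨O, ?_, ?_, ?_⟩
  · have h1 : Finset.univ.image P ⊆ O := by
      intro Q hQ
      obtain ⟨i, -, rfl⟩ := Finset.mem_image.mp hQ
      rw [hO]
      exact ⟨i, 0, hn i, rfl⟩
    have h2 := Finset.card_le_card h1
    rwa [Finset.card_image_of_injective _ hP, Finset.card_univ, Fintype.card_fin] at h2
  · intro Q hQ
    rw [hO] at hQ ⊢
    obtain ⟨i, t, ht, rfl⟩ := hQ
    rcases Nat.lt_or_ge (t + 1) (n i) with h | h
    · exact ⟨i, t + 1, h, Function.iterate_succ_apply' _ _ _⟩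
    · refine ⟨i, 0, hn i, ?_⟩
      have h1 : Nat.succ t = n i := by omega
      rw [← Function.iterate_succ_apply' (hen K v), h1, hnP]
      rfl
  · intro Q hQ
    rw [hO] at hQ
    obtain ⟨i, t, ht, rfl⟩ := hQ
    rcases Nat.eq_zero_or_pos t with h | h
    · subst h
      refine ⟨(hen K v)^[n i - 1] (P i), (hO _).mpr ⟨i, n i - 1, by have := hn i; omega, rfl⟩, ?_⟩
      rw [← Function.iterate_succ_apply' (hen K v)]
      have h1 : Nat.succ (n i - 1) = n i := by have := hn i; omega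
      rw [h1, hnP]
      rfl
    · refine ⟨(hen K v)^[t - 1] (P i), (hO _).mpr ⟨i, t - 1, by omega, rfl⟩, ?_⟩
      rw [← Function.iterate_succ_apply' (hen K v)]
      congr 1
      omega

/-- choosing elements of a finite set, one of them of maximal height -/
theorem exists_tuple {K : Type} [Field K] [NumberField K] (S : Finset K) {m : ℕ} (hm : 1 ≤ m)
    (hmS : m ≤ S.card) : ∃ x : Fin m → K, Function.Injective x ∧ (∀ i, x i ∈ S) ∧
      ∃ i₀, ∀ s ∈ S, mulHeight₁ s ≤ mulHeight₁ (x i₀) := by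
  classical
  obtain ⟨s₀, hs₀, hmax⟩ := Finset.exists_max_image S (fun s => mulHeight₁ s)
    (Finset.card_pos.mp (by omega))
  obtain ⟨T, hT1, hT2, hT3⟩ := Finset.exists_subsuperset_card_eq
    (Finset.singleton_subset_iff.mpr hs₀) (by rwa [Finset.card_singleton]) hmS
  let e := T.equivFinOfCardEq hT3
  refine ⟨fun i => (e.symm i : K), fun i j h => e.symm.injective (Subtype.ext h),
    fun i => hT2 (e.symm i).2, e ⟨s₀, hT1 (Finset.mem_singleton_self _)⟩, fun s hs => ?_⟩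
  simpa using hmax s hs

theorem PerK.case {d D k H : ℕ} (hd : 2 ≤ d) (hH : 1 ≤ H) (hk : 1 ≤ k) {v : Vec d}
    (hv : v ∈ vbox d H) (hhen : IsHen v) (h : PerK D k v) :
    (∃ κ, Case D k κ False H v) ∨ (∃ κ, Case D (Nat.sqrt (k - 1) + 1) κ True H v) := by
  classical
  obtain ⟨K, i1, i2, hK, P, hP, hper⟩ := h
  obtain ⟨O, hOk, hO1, hO2⟩ := exists_closed v P hP hper
  obtain ⟨hb, he, hg⟩ := mem_vbox.mp hv
  have hbK : (v.1 : K) ≠ 0 := by exact_mod_cast hhen.1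
  let S : Finset K := O.image Prod.snd
  have hS2 : ∀ Q ∈ O, Q.2 ∈ S := fun Q hQ => Finset.mem_image_of_mem _ hQ
  have hS1 : ∀ Q ∈ O, Q.1 ∈ S := by
    intro Q hQ
    obtain ⟨Q', hQ', rfl⟩ := hO2 Q hQ
    exact hS2 Q' hQ'
  have hrecO : ∀ Q ∈ O, Rec v Q.2 (hen K v Q).2 Q.1 := by
    intro Q _
    unfold Rec hen
    simp only
    field_simp
    ring
  have hrec : ∀ s ∈ S, ∃ q ∈ S, ∃ p ∈ S, ∑ i, (v.2.2 i : K) * s ^ (i : ℕ) =
      (v.1 : K) * q + (v.2.1 : K) * p := by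
    intro s hs
    obtain ⟨Q, hQ, rfl⟩ := Finset.mem_image.mp hs
    exact ⟨(hen K v Q).2, hS2 _ (hO1 Q hQ), Q.1, hS1 Q hQ, hrecO Q hQ⟩
  have hap : ∀ s ∈ S, mulHeight₁ s ≤ ((d + 2) * H : ℝ) ^ D := by
    intro s hs
    refine (apriori hd v.1 v.2.1 v.2.2 hb he hg S hrec hhen.2.2 hs).trans ?_
    refine pow_le_pow_right₀ ?_ hK
    have h1 : (1 : ℝ) ≤ H := by exact_mod_cast hH
    have h2 : (0 : ℝ) ≤ d := Nat.cast_nonneg _
    nlinarith
  have hcase : ∀ (m : ℕ) (ex : Prop), 1 ≤ m → m ≤ S.card →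
      (ex → ∃ y : Fin 4 → K, (∀ j, y j ∈ S) ∧ y 0 ≠ y 1 ∧
        (v.2.1 : K) * (y 0 - y 1) = v.1 * (y 2 - y 3)) → ∃ κ, Case D m κ ex H v := by
    intro m ex hm hmS hex
    obtain ⟨x, hx, hxS, i₀, hmax⟩ := exists_tuple S hm hmS
    have hch : ∀ i, ∃ q ∈ S, ∃ p ∈ S, Rec v (x i) q p := fun i => hrec (x i) (hxS i)
    choose q hq p hp hqp using hch
    obtain ⟨κ, h2, h3⟩ := exists_nat_pow_near (one_le_mulHeight₁ (x i₀))
      (by norm_num : (1 : ℝ) < 2)
    refine ⟨κ, K, i1, i2, hK, x, q, p, hx, hqp, i₀, fun i => ⟨hmax _ (hxS i), hmax _ (hq i),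
      hmax _ (hp i)⟩, h2, h3.le, hap _ (hxS i₀), ?_⟩
    by_cases h : ex
    · obtain ⟨y, hy, hy2⟩ := hex h
      exact ⟨y, fun j => hmax _ (hy j), fun _ => hy2⟩
    · exact ⟨fun _ => x i₀, fun _ => le_rfl, fun h' => absurd h' h⟩
  by_cases hinj : Set.InjOn Prod.snd (O : Set (K × K))
  · left
    have h1 : S.card = O.card := Finset.card_image_of_injOn hinj
    exact hcase k False hk (by omega) (fun h => h.elim)
  · right
    have h1 : O.card ≤ S.card * S.card := by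
      have h2 : O ⊆ S ×ˢ S := by
        intro Q hQ
        rw [Finset.mem_product]
        exact ⟨hS1 Q hQ, hS2 Q hQ⟩
      have h3 := Finset.card_le_card h2
      rwa [Finset.card_product] at h3
    have h2 : Nat.sqrt (k - 1) + 1 ≤ S.card := by
      by_contra hcon
      push Not at hcon
      have h3 : S.card ≤ Nat.sqrt (k - 1) := by omega
      have h4 : S.card * S.card ≤ k - 1 :=
        (Nat.mul_le_mul h3 h3).trans (Nat.sqrt_le (k - 1))
      omega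
    refine hcase _ True (by omega) h2 fun _ => ?_
    unfold Set.InjOn at hinj
    push Not at hinj
    obtain ⟨Q, hQ, Q', hQ', hQQ, hne⟩ := hinj
    have hQ1 : Q.1 ≠ Q'.1 := fun h => hne (Prod.ext h hQQ)
    refine ⟨![Q.1, Q'.1, (hen K v Q').2, (hen K v Q).2], ?_, hQ1, ?_⟩
    · intro j
      fin_cases j
      · exact hS1 Q hQ
      · exact hS1 Q' hQ'
      · exact hS2 _ (hO1 Q' hQ')
      · exact hS2 _ (hO1 Q hQ)
    · have e1 := hrecO Q hQ
      have e2 := hrecO Q' hQ'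
      unfold Rec at e1 e2
      rw [hQQ, e2] at e1
      simp only [Matrix.cons_val_zero, Matrix.cons_val_one, Matrix.cons_val]
      linear_combination -e1

/-- the exponent -/
def ek (k : ℕ) : ℕ := min k (Nat.sqrt (k - 1) + 2)

theorem per_count (hroot : S_root) (hpts : S_pts) (D k : ℕ) (hD : 1 ≤ D) (hk : 1 ≤ k) :
    ∃ d₀ : ℕ, ∀ d, d₀ ≤ d → (2 ≤ d ∧ k ≤ d) ∧ ∃ C : ℝ, 0 < C ∧ ∀ H : ℕ, 1 ≤ H →
      (({v | v ∈ vbox d H ∧ IsHen v ∧ PerK D k v} : Set (Vec d)).ncard : ℝ) ≤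
        C * (H : ℝ) ^ (d + 3 - ek k) := by
  classical
  obtain ⟨c, C₂, hc⟩ := hpts D
  set m := Nat.sqrt (k - 1) + 1 with hm
  have hmk : m ≤ k := by
    have := Nat.sqrt_le_self (k - 1)
    omega
  refine ⟨k + 2 + 2 * D * (c * (3 * k + 4) + 1), fun d hd => ?_⟩
  have hd2 : 2 ≤ d := by omega
  have hkd : k ≤ d := by omega
  refine ⟨⟨hd2, hkd⟩, ?_⟩
  have hmono : 2 * D * (c * (3 * m + 4) + 1) ≤ 2 * D * (c * (3 * k + 4) + 1) := by
    apply Nat.mul_le_mul_left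
    apply Nat.add_le_add_right
    apply Nat.mul_le_mul_left
    omega
  obtain ⟨CA, hCA, hA⟩ := case_count hroot (D := D) (m := k) (d := d) (c := c) hD (by omega)
    (C₂ := C₂) False
  obtain ⟨CB, hCB, hB⟩ := case_count hroot (D := D) (m := m) (d := d) (c := c) hD (by omega)
    (C₂ := C₂) True
  refine ⟨2 * CA + 2 * CB + 1, by positivity, fun H hH => ?_⟩
  have hH1 : (1 : ℝ) ≤ H := by exact_mod_cast hH
  have hfin : ∀ Q : Vec d → Prop, ({v | v ∈ vbox d H ∧ Q v} : Set (Vec d)).Finite := fun Q =>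
    (Finset.finite_toSet (vbox d H)).subset fun v h => h.1
  have gA := shells (W := {v : Vec d | v ∈ vbox d H ∧ ∃ κ, Case D k κ False H v})
    (hfin _) (fun κ => {v | v ∈ vbox d H ∧ Case D k κ False H v}) (fun κ => hfin _)
    (by
      rintro v ⟨hv, κ, hκ⟩
      exact ⟨κ, hv, hκ⟩)
    (X := CA * (H : ℝ) ^ (2 + (d + 1 - k))) (by positivity) (by
      intro κ
      obtain ⟨A, hA1, hA2⟩ := hc (2 ^ (κ + 1)) (one_le_pow₀ (by norm_num))
      have := hA H hH κ A hA1 (fun K _ _ hK x hx φ => hA2 K hK x hx φ)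
      simpa using this)
  have gB := shells (W := {v : Vec d | v ∈ vbox d H ∧ ∃ κ, Case D m κ True H v})
    (hfin _) (fun κ => {v | v ∈ vbox d H ∧ Case D m κ True H v}) (fun κ => hfin _)
    (by
      rintro v ⟨hv, κ, hκ⟩
      exact ⟨κ, hv, hκ⟩)
    (X := CB * (H : ℝ) ^ (1 + (d + 1 - m))) (by positivity) (by
      intro κ
      obtain ⟨A, hA1, hA2⟩ := hc (2 ^ (κ + 1)) (one_le_pow₀ (by norm_num))
      have := hB H hH κ A hA1 (fun K _ _ hK x hx φ => hA2 K hK x hx φ)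
      simpa using this)
  have hsub : {v : Vec d | v ∈ vbox d H ∧ IsHen v ∧ PerK D k v} ⊆
      {v : Vec d | v ∈ vbox d H ∧ ∃ κ, Case D k κ False H v} ∪
        {v : Vec d | v ∈ vbox d H ∧ ∃ κ, Case D m κ True H v} := by
    rintro v ⟨hv, hhen, hper⟩
    rcases hper.case hd2 hH hk hv hhen with h | h
    · exact Or.inl ⟨hv, h⟩
    · exact Or.inr ⟨hv, h⟩
  have h1 : (({v : Vec d | v ∈ vbox d H ∧ IsHen v ∧ PerK D k v}).ncard : ℝ) ≤
      (({v : Vec d | v ∈ vbox d H ∧ ∃ κ, Case D k κ False H v}).ncard : ℝ) +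
        (({v : Vec d | v ∈ vbox d H ∧ ∃ κ, Case D m κ True H v}).ncard : ℝ) := by
    have h2 := Set.ncard_le_ncard hsub ((hfin _).union (hfin _))
    exact_mod_cast h2.trans (Set.ncard_union_le _ _)
  have e1 : (H : ℝ) ^ (2 + (d + 1 - k)) ≤ (H : ℝ) ^ (d + 3 - ek k) := by
    refine pow_le_pow_right₀ hH1 ?_
    have : ek k ≤ k := min_le_left _ _
    omega
  have e2 : (H : ℝ) ^ (1 + (d + 1 - m)) ≤ (H : ℝ) ^ (d + 3 - ek k) := by
    refine pow_le_pow_right₀ hH1 ?_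
    have : ek k ≤ m + 1 := min_le_right _ _
    omega
  have e3 : (0 : ℝ) ≤ (H : ℝ) ^ (d + 3 - ek k) := by positivity
  calc _ ≤ _ := h1
    _ ≤ 2 * (CA * (H : ℝ) ^ (2 + (d + 1 - k))) + 2 * (CB * (H : ℝ) ^ (1 + (d + 1 - m))) :=
        add_le_add gA gB
    _ ≤ 2 * (CA * (H : ℝ) ^ (d + 3 - ek k)) + 2 * (CB * (H : ℝ) ^ (d + 3 - ek k)) := by gcongr
    _ ≤ _ := by nlinarith

theorem per_upper (D k : ℕ) (hD : 1 ≤ D) (hk : 1 ≤ k) :
    ∃ d₀ : ℕ, ∀ d, d₀ ≤ d → (2 ≤ d ∧ k ≤ d) ∧ ∃ C : ℝ, 0 < C ∧ ∀ H : ℕ, 1 ≤ H →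
      (({v | v ∈ vbox d H ∧ IsHen v ∧ PerK D k v} : Set (Vec d)).ncard : ℝ) ≤
        C * (H : ℝ) ^ (d + 3 - ek k) :=
  per_count Pool.Agent.W347.GE.root Pool.Agent.W32.GE.pts D k hD hk

end Pool.Agent.R414.EB
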