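import Pool.Agent.R414.EB.Dyn
import Pool.Agent.R414.EA.Fin

/-!
# Hénon maps with many periodic points: the lower bound
-/

set_option autoImplicit false

open Finset Polynomial

noncomputable section

namespace Pool.Agent.R414.EB

/-- the polynomial with the zeros `0, ..., m - 1` -/
def W (m : ℕ) : ℤ[X] := ∏ j ∈ Finset.range m, (X - C (j : ℤ))

theorem W_monic (m : ℕ) : (W m).Monic := monic_prod_of_monic _ _ fun _ _ => monic_X_sub_C _

theorem W_natDegree (m : ℕ) : (W m).natDegree = m := by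
  rw [W, natDegree_prod_of_monic _ _ fun _ _ => monic_X_sub_C _]
  have h : ∀ j ∈ Finset.range m, (X - C (j : ℤ) : ℤ[X]).natDegree = 1 := fun j _ =>
    natDegree_X_sub_C (j : ℤ)
  rw [Finset.sum_congr rfl h, Finset.sum_const, card_range, smul_eq_mul, mul_one]

/-- the polynomial with the coefficients `Q` -/
def Qp {n : ℕ} (Q : Fin (n + 1) → ℤ) : ℤ[X] := ∑ j, C (Q j) * X ^ (j : ℕ)

theorem Qp_natDegree {n : ℕ} (Q : Fin (n + 1) → ℤ) : (Qp Q).natDegree ≤ n := by
  refine natDegree_sum_le_of_forall_le _ _ fun l _ => ?_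
  refine (natDegree_C_mul_X_pow_le _ _).trans ?_
  have := l.2
  omega

theorem Qp_coeff {n : ℕ} (Q : Fin (n + 1) → ℤ) (j : Fin (n + 1)) : (Qp Q).coeff j = Q j := by
  rw [Qp, finsetSum_coeff, Finset.sum_eq_single j]
  · rw [coeff_C_mul_X_pow, if_pos rfl]
  · intro i _ hi
    rw [coeff_C_mul_X_pow, if_neg]
    intro h
    exact hi (Fin.ext h.symm)
  · intro h
    exact absurd (Finset.mem_univ _) h

/-- the family of polynomials with prescribed values at `0, ..., m - 1` -/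
def Gp (m : ℕ) {n : ℕ} (u w : ℤ) (Q : Fin (n + 1) → ℤ) : ℤ[X] := C u * X + C w + W m * Qp Q

theorem Gp_natDegree {d m : ℕ} (hm : m ≤ d) (hd : 1 ≤ d) (u w : ℤ) (Q : Fin (d - m + 1) → ℤ) :
    (Gp m u w Q).natDegree ≤ d := by
  refine (natDegree_add_le _ _).trans (max_le ?_ ?_)
  · refine (natDegree_add_le _ _).trans (max_le ?_ ?_)
    · exact (natDegree_C_mul_le _ _).trans (natDegree_X_le.trans hd)
    · rw [natDegree_C]
      exact Nat.zero_le _
  · refine natDegree_mul_le.trans ?_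
    rw [W_natDegree]
    have := Qp_natDegree Q
    omega

theorem Gp_sum {d m : ℕ} (hm : m ≤ d) (hd : 1 ≤ d) (u w : ℤ) (Q : Fin (d - m + 1) → ℤ) {j : ℕ}
    (hj : j < m) : ∑ i : Fin (d + 1), (((Gp m u w Q).coeff i : ℤ) : ℂ) * (j : ℂ) ^ (i : ℕ) =
      u * j + w := by
  have h1 := aeval_eq_sum_range' (Nat.lt_succ_of_le (Gp_natDegree hm hd u w Q)) (j : ℂ)
  rw [Nat.succ_eq_add_one, ← Fin.sum_univ_eq_sum_range
    (fun i => (Gp m u w Q).coeff i • (j : ℂ) ^ i)] at h1
  simp only [zsmul_eq_mul] at h1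
  rw [← h1]
  simp only [Gp, map_add, map_mul, aeval_X, aeval_C]
  have h2 : aeval (j : ℂ) (W m) = 0 := by
    rw [W, map_prod]
    refine Finset.prod_eq_zero (Finset.mem_range.mpr hj) ?_
    simp
  rw [h2]
  simp

theorem Gp_lead {d m : ℕ} (hm : m ≤ d) (hd : 2 ≤ d) (u w : ℤ) (Q : Fin (d - m + 1) → ℤ) :
    (Gp m u w Q).coeff d = Q (Fin.last _) := by
  have h1 : (W m * Qp Q).coeff (m + (d - m)) = (W m).coeff m * (Qp Q).coeff (d - m) :=
    coeff_mul_add_eq_of_natDegree_le (W_natDegree m).le (Qp_natDegree Q)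
  have h2 : (W m).coeff m = 1 := by
    have := W_monic m
    rw [Monic, leadingCoeff, W_natDegree] at this
    exact this
  have h3 : (Qp Q).coeff (d - m) = Q (Fin.last _) := Qp_coeff Q (Fin.last _)
  have h4 : m + (d - m) = d := by omega
  rw [h4, h2, h3, one_mul] at h1
  rw [Gp, coeff_add, coeff_add, h1, coeff_C_mul, coeff_X, coeff_C]
  rw [if_neg (by omega), if_neg (by omega)]
  ring

/-- the bound for the coefficients of the products -/
def w₁ (d m : ℕ) : ℕ := ∑ i : Fin (d + 1), ∑ j : Fin (d - m + 1), ((W m * X ^ (j : ℕ)).coeff i).natAbs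

theorem abs_sum_mul_le {n : ℕ} (Q a : Fin n → ℤ) (T : ℕ) (hQ : ∀ j, |Q j| ≤ T) :
    |∑ j, Q j * a j| ≤ (((∑ j, (a j).natAbs) * T : ℕ) : ℤ) := by
  calc |∑ j, Q j * a j| ≤ ∑ j, |Q j * a j| := Finset.abs_sum_le_sum_abs _ _
    _ ≤ ∑ j, ((a j).natAbs : ℤ) * T := by
        refine Finset.sum_le_sum fun j _ => ?_
        rw [abs_mul, Int.natCast_natAbs, mul_comm]
        exact mul_le_mul_of_nonneg_left (hQ j) (abs_nonneg _)
    _ = _ := by rw [← Finset.sum_mul, Nat.cast_mul, Nat.cast_sum]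

theorem Gp_bound {d m T : ℕ} (u w : ℤ) (Q : Fin (d - m + 1) → ℤ) (hQ : ∀ j, |Q j| ≤ T)
    (i : Fin (d + 1)) : |(Gp m u w Q).coeff i| ≤ |u| + |w| + (w₁ d m * T : ℕ) := by
  have h1 : (W m * Qp Q).coeff i = ∑ j, Q j * (W m * X ^ (j : ℕ)).coeff i := by
    rw [Qp, Finset.mul_sum, finsetSum_coeff]
    refine Finset.sum_congr rfl fun j _ => ?_
    have : W m * (C (Q j) * X ^ (j : ℕ)) = C (Q j) * (W m * X ^ (j : ℕ)) := by ring
    rw [this, coeff_C_mul]
  have h2 : |(W m * Qp Q).coeff i| ≤ ((w₁ d m * T : ℕ) : ℤ) := by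
    rw [h1]
    refine (abs_sum_mul_le Q (fun j => (W m * X ^ (j : ℕ)).coeff i) T hQ).trans ?_
    refine Nat.cast_le.mpr (Nat.mul_le_mul_right T ?_)
    exact Finset.single_le_sum (f := fun i : Fin (d + 1) => ∑ j : Fin (d - m + 1),
      ((W m * X ^ (j : ℕ)).coeff i).natAbs) (fun i _ => Nat.zero_le _) (Finset.mem_univ i)
  have h3 : |(C u * X + C w : ℤ[X]).coeff i| ≤ |u| + |w| := by
    rw [coeff_add, coeff_C_mul, coeff_X, coeff_C]
    have e1 : |u * (if 1 = (i : ℕ) then 1 else 0)| ≤ |u| := by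
      split_ifs <;> simp
    have e2 : |(if (i : ℕ) = 0 then w else 0 : ℤ)| ≤ |w| := by
      split_ifs <;> simp
    exact (abs_add_le _ _).trans (add_le_add e1 e2)
  rw [Gp, coeff_add]
  exact (abs_add_le _ _).trans (add_le_add h3 h2)

theorem Gp_inj {d m : ℕ} (hm : m ≤ d) (hd : 1 ≤ d) (u w : ℤ) {Q Q' : Fin (d - m + 1) → ℤ}
    (h : ∀ i : Fin (d + 1), (Gp m u w Q).coeff i = (Gp m u w Q').coeff i) : Q = Q' := by
  have h1 : Gp m u w Q = Gp m u w Q' := by
    ext i
    rcases Nat.lt_or_ge i (d + 1) with hi | hi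
    · exact h ⟨i, hi⟩
    · rw [coeff_eq_zero_of_natDegree_lt (lt_of_le_of_lt (Gp_natDegree hm hd u w Q) hi),
        coeff_eq_zero_of_natDegree_lt (lt_of_le_of_lt (Gp_natDegree hm hd u w Q') hi)]
  have h2 : W m * Qp Q = W m * Qp Q' := add_left_cancel h1
  have h3 : Qp Q = Qp Q' := mul_left_cancel₀ (W_monic m).ne_zero h2
  funext j
  rw [← Qp_coeff Q j, ← Qp_coeff Q' j, h3]

/-- `k` different periodic points of degree at most `D` -/
def PerC {d : ℕ} (D k : ℕ) (v : Vec d) : Prop :=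
  ∃ P : Fin k → ℂ × ℂ, Function.Injective P ∧
    ∀ i, (∃ K : IntermediateField ℚ ℂ, FiniteDimensional ℚ K ∧ Module.finrank ℚ K ≤ D ∧
        (P i).1 ∈ K ∧ (P i).2 ∈ K) ∧
      ∃ n : ℕ, 1 ≤ n ∧ (hen ℂ v)^[n] (P i) = P i

/-- the boxes of the parameters -/
def pbox (n T : ℕ) : Finset (Fin (n + 1) → ℤ) := Fintype.piFinset fun _ => Finset.Icc 1 (T : ℤ)

theorem mem_pbox {n T : ℕ} {Q : Fin (n + 1) → ℤ} : Q ∈ pbox n T ↔ ∀ j, 1 ≤ Q j ∧ Q j ≤ T := by
  simp [pbox, Fintype.mem_piFinset]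

theorem card_pbox (n T : ℕ) : (pbox n T).card = T ^ (n + 1) := by
  simp only [pbox, Fintype.card_piFinset, Int.card_Icc, Finset.prod_const, Finset.card_univ,
    Fintype.card_fin]
  congr 1
  omega

theorem nat_mem (z : ℕ) : (z : ℂ) ∈ (⊥ : IntermediateField ℚ ℂ) := natCast_mem _ z

theorem lowA {d k T H : ℕ} (hk : k ≤ d) (hd : 2 ≤ d) (hT : (w₁ d k + k + 2) * T ≤ H) :
    T ^ (d + 3 - k) ≤ ({v | v ∈ vbox d H ∧ (IsHen v ∧ PerC 1 k v)} : Set (Vec d)).ncard := by
  classical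
  let Dm : Finset (ℤ × ℤ × (Fin (d - k + 1) → ℤ)) :=
    Finset.Icc 1 (T : ℤ) ×ˢ Finset.Icc 1 (T : ℤ) ×ˢ pbox (d - k) T
  have hcard : Dm.card = T ^ (d + 3 - k) := by
    simp only [Dm, Finset.card_product, Int.card_Icc, card_pbox]
    have h1 : ((T : ℤ) + 1 - 1).toNat = T := by omega
    rw [h1, ← pow_succ', ← pow_succ']
    congr 1
    omega
  rw [← hcard, ← Set.ncard_coe_finset]
  refine Set.ncard_le_ncard_of_injOn
    (fun z => (z.1, z.2.1, fun i : Fin (d + 1) => (Gp k (z.1 + z.2.1) 0 z.2.2).coeff i)) ?_ ?_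
    ((Finset.finite_toSet (vbox d H)).subset fun v h => h.1)
  · rintro ⟨b, e, Q⟩ hz
    simp only [Dm, Finset.coe_product, Set.mem_prod, Finset.mem_coe, Finset.mem_Icc, mem_pbox] at hz
    obtain ⟨⟨hb1, hb2⟩, ⟨he1, he2⟩, hQ⟩ := hz
    have hTH : (T : ℤ) ≤ H := by
      have : T ≤ H := le_trans (Nat.le_mul_of_pos_left _ (by omega)) hT
      exact_mod_cast this
    have hsum : ∀ j : ℕ, j < k → ∑ i : Fin (d + 1),
        (((Gp k (b + e) 0 Q).coeff i : ℤ) : ℂ) * (j : ℂ) ^ (i : ℕ) = (b + e) * j := by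
      intro j hj
      rw [Gp_sum hk (by omega) (b + e) 0 Q hj]
      push_cast
      ring
    have hb0 : (b : ℂ) ≠ 0 := by
      rw [Int.cast_ne_zero]
      omega
    refine ⟨?_, ⟨?_, ?_, ?_⟩, ?_⟩
    · rw [mem_vbox]
      refine ⟨abs_le.mpr ⟨by linarith, by linarith⟩, abs_le.mpr ⟨by linarith, by linarith⟩,
        fun i => ?_⟩
      have h1 := Gp_bound (b + e) 0 Q (T := T) (fun j => abs_le.mpr
        ⟨by linarith [(hQ j).1, (hQ j).2], (hQ j).2⟩) i
      have h2 : |b + e| ≤ 2 * T := abs_le.mpr ⟨by linarith, by linarith⟩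
      have h3 : (((w₁ d k + k + 2) * T : ℕ) : ℤ) ≤ H := by exact_mod_cast hT
      push_cast at h1 h3
      simp only [abs_zero, add_zero] at h1
      have h4 : (0 : ℤ) ≤ (k : ℤ) * T := by positivity
      refine h1.trans ?_
      linarith
    · simp only
      omega
    · simp only
      omega
    · show (Gp k (b + e) 0 Q).coeff ((Fin.last d : Fin (d + 1)) : ℕ) ≠ 0
      rw [Fin.val_last, Gp_lead hk hd]
      have := (hQ (Fin.last _)).1
      omega
    · refine ⟨fun i => ((i : ℕ), (i : ℕ)), ?_, fun i => ⟨⟨⊥, inferInstance, ?_, nat_mem _, nat_mem _⟩,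
        1, le_rfl, ?_⟩⟩
      · intro i j hij
        have := congrArg Prod.fst hij
        simp only [Nat.cast_inj] at this
        exact Fin.ext this
      · rw [IntermediateField.finrank_bot]
      · rw [Function.iterate_one]
        unfold hen
        simp only
        rw [hsum i i.2]
        refine Prod.ext rfl ?_
        simp only
        field_simp
        ring
  · rintro ⟨b, e, Q⟩ _ ⟨b', e', Q'⟩ _ h
    simp only [Prod.mk.injEq] at h
    obtain ⟨rfl, rfl, h3⟩ := h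
    have := Gp_inj hk (by omega) (b + e) 0 (fun i => congrFun h3 i)
    rw [this]

theorem lowB {d m k T H : ℕ} (hm1 : 1 ≤ m) (hm : m ≤ d) (hd : 2 ≤ d) (hkm : k ≤ m * m)
    (hT : (w₁ d m + m + 2) * T ≤ H) :
    T ^ (d + 2 - m) ≤ ({v | v ∈ vbox d H ∧ (IsHen v ∧ PerC 1 k v)} : Set (Vec d)).ncard := by
  classical
  let Dm : Finset (ℤ × (Fin (d - m + 1) → ℤ)) := Finset.Icc 1 (T : ℤ) ×ˢ pbox (d - m) T
  have hcard : Dm.card = T ^ (d + 2 - m) := by
    simp only [Dm, Finset.card_product, Int.card_Icc, card_pbox]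
    have h1 : ((T : ℤ) + 1 - 1).toNat = T := by omega
    rw [h1, ← pow_succ']
    congr 1
    omega
  rw [← hcard, ← Set.ncard_coe_finset]
  refine Set.ncard_le_ncard_of_injOn
    (fun z => (z.1, z.1, fun i : Fin (d + 1) => (Gp m 0 (z.1 * (m - 1)) z.2).coeff i)) ?_ ?_
    ((Finset.finite_toSet (vbox d H)).subset fun v h => h.1)
  · rintro ⟨b, Q⟩ hz
    simp only [Dm, Finset.coe_product, Set.mem_prod, Finset.mem_coe, Finset.mem_Icc, mem_pbox] at hz
    obtain ⟨⟨hb1, hb2⟩, hQ⟩ := hz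
    have hTH : (T : ℤ) ≤ H := by
      have : T ≤ H := le_trans (Nat.le_mul_of_pos_left _ (by omega)) hT
      exact_mod_cast this
    have hb0 : (b : ℂ) ≠ 0 := by
      rw [Int.cast_ne_zero]
      omega
    have hstep : ∀ a c : ℕ, a < m → c < m →
        hen ℂ ((b, b, fun i : Fin (d + 1) => (Gp m 0 (b * (m - 1)) Q).coeff i) : Vec d)
          ((a : ℂ), (c : ℂ)) = ((c : ℂ), ((m - 1 - a : ℕ) : ℂ)) := by
      intro a c ha hc
      unfold hen
      simp only
      rw [Gp_sum hm (by omega) 0 _ Q hc]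
      refine Prod.ext rfl ?_
      simp only
      have h1 : ((m - 1 - a : ℕ) : ℂ) = (m : ℂ) - 1 - a := by
        rw [Nat.cast_sub (by omega), Nat.cast_sub hm1]
        simp
      rw [h1]
      push_cast
      field_simp
      ring
    refine ⟨?_, ⟨?_, ?_, ?_⟩, ?_⟩
    · rw [mem_vbox]
      refine ⟨abs_le.mpr ⟨by linarith, by linarith⟩, abs_le.mpr ⟨by linarith, by linarith⟩,
        fun i => ?_⟩
      have h1 := Gp_bound 0 (b * (m - 1)) Q (T := T) (fun j => abs_le.mpr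
        ⟨by linarith [(hQ j).1, (hQ j).2], (hQ j).2⟩) i
      have hm1' : (1 : ℤ) ≤ m := by exact_mod_cast hm1
      have h2 : |b * ((m : ℤ) - 1)| ≤ T * m := by
        rw [abs_of_nonneg (by nlinarith)]
        nlinarith
      have h3 : (((w₁ d m + m + 2) * T : ℕ) : ℤ) ≤ H := by exact_mod_cast hT
      push_cast at h1 h3
      simp only [abs_zero, zero_add] at h1
      refine h1.trans ?_
      have h4 : (0 : ℤ) ≤ T := by positivity
      linarith
    · simp only
      omega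
    · simp only
      omega
    · show (Gp m 0 (b * (m - 1)) Q).coeff ((Fin.last d : Fin (d + 1)) : ℕ) ≠ 0
      rw [Fin.val_last, Gp_lead hm hd]
      have := (hQ (Fin.last _)).1
      omega
    · have hemb : Fintype.card (Fin k) ≤ Fintype.card (Fin m × Fin m) := by
        rw [Fintype.card_prod, Fintype.card_fin, Fintype.card_fin]
        exact hkm
      obtain ⟨f⟩ := Function.Embedding.nonempty_of_card_le hemb
      refine ⟨fun i => (((f i).1 : ℕ), ((f i).2 : ℕ)), ?_, fun i => ⟨⟨⊥, inferInstance, ?_,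
        nat_mem _, nat_mem _⟩, 4, by norm_num, ?_⟩⟩
      · intro i j hij
        have h1 := congrArg Prod.fst hij
        have h2 := congrArg Prod.snd hij
        simp only [Nat.cast_inj] at h1 h2
        exact f.injective (Prod.ext (Fin.ext h1) (Fin.ext h2))
      · rw [IntermediateField.finrank_bot]
      · have ha := (f i).1.2
        have hc := (f i).2.2
        simp only [Function.iterate_succ, Function.iterate_zero, Function.comp, id]
        rw [hstep _ _ ha hc, hstep _ _ hc (by omega), hstep _ _ (by omega) (by omega),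
          hstep _ _ (by omega) (by omega)]
        have e1 : m - 1 - (m - 1 - ((f i).1 : ℕ)) = (f i).1 := by omega
        have e2 : m - 1 - (m - 1 - ((f i).2 : ℕ)) = (f i).2 := by omega
        rw [e1, e2]
  · rintro ⟨b, Q⟩ _ ⟨b', Q'⟩ _ h
    simp only [Prod.mk.injEq] at h
    obtain ⟨rfl, -, h3⟩ := h
    have := Gp_inj hm (by omega) 0 _ (fun i => congrFun h3 i)
    rw [this]

theorem PerC.perK {d D k : ℕ} {v : Vec d} (h : PerC D k v) : PerK (D ^ k) k v := by
  classical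
  obtain ⟨P, hP, hx⟩ := h
  choose K hK using fun i => (hx i).1
  obtain ⟨L, hL, hL2, hL3⟩ := Pool.Agent.R414.EA.exists_compositum D k K
    fun i => ⟨(hK i).1, (hK i).2.1⟩
  let y : Fin k → L × L := fun i => (⟨(P i).1, hL3 i (hK i).2.2.1⟩, ⟨(P i).2, hL3 i (hK i).2.2.2⟩)
  let φ : L →+* ℂ := algebraMap L ℂ
  have hit : ∀ (n : ℕ) (z : L × L),
      Prod.map φ φ ((hen L v)^[n] z) = (hen ℂ v)^[n] (Prod.map φ φ z) := by
    intro n
    induction n with
    | zero => exact fun z => rfl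
    | succ n ih =>
      intro z
      rw [Function.iterate_succ_apply, Function.iterate_succ_apply, ih]
      congr 1
      unfold hen
      simp only [Prod.map, Prod.mk.injEq, true_and]
      rw [map_div₀, map_sub, map_sum, map_mul, map_intCast, map_intCast]
      simp
  have this : NumberField L := { to_charZero := inferInstance, to_finiteDimensional := hL }
  refine ⟨L, inferInstance, this, hL2, y, ?_, ?_⟩
  · intro i j hij
    apply hP
    have h1 := congrArg (Prod.map φ φ) hij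
    exact h1
  · intro i
    obtain ⟨n, hn, hnP⟩ := (hx i).2
    refine ⟨n, hn, ?_⟩
    have h1 := hit n (y i)
    have h2 : Prod.map φ φ (y i) = P i := rfl
    rw [h2, hnP, ← h2] at h1
    exact Function.Injective.prodMap φ.injective φ.injective h1

theorem final (D k : ℕ) (hD : 1 ≤ D) (hk : 1 ≤ k) : ∃ d₀ : ℕ, ∀ d, d₀ ≤ d →
    ∃ (c C : ℝ) (H₀ : ℕ), 0 < c ∧ 0 < C ∧
      (∀ H : ℕ, 1 ≤ H → (({v | v ∈ vbox d H ∧ (IsHen v ∧ PerC D k v)} : Set (Vec d)).ncard : ℝ) ≤
        C * (H : ℝ) ^ (d + 3 - ek k)) ∧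
      (∀ H : ℕ, H₀ ≤ H → c * (H : ℝ) ^ (d + 3 - ek k) ≤
        (({v | v ∈ vbox d H ∧ (IsHen v ∧ PerC 1 k v)} : Set (Vec d)).ncard : ℝ)) := by
  classical
  obtain ⟨d₀, hd₀⟩ := per_upper (D ^ k) k (Nat.one_le_pow _ _ hD) hk
  refine ⟨d₀, fun d hd => ?_⟩
  obtain ⟨⟨hd2, hkd⟩, C, hC, h⟩ := hd₀ d hd
  set m := Nat.sqrt (k - 1) + 1 with hm
  have hmk : m ≤ k := by
    have := Nat.sqrt_le_self (k - 1)
    omega
  have hkm : k ≤ m * m := by
    have h1 := Nat.lt_succ_sqrt (k - 1)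
    have h2 : Nat.succ (Nat.sqrt (k - 1)) = m := rfl
    rw [h2] at h1
    omega
  set c₀ := w₁ d k + w₁ d m + k + 2 with hc₀
  refine ⟨(1 / (2 * c₀ : ℝ)) ^ (d + 3 - ek k), C, c₀, by positivity, hC, fun H hH => ?_,
    fun H hH => ?_⟩
  · refine le_trans ?_ (h H hH)
    have h2 : ({v | v ∈ vbox d H ∧ (IsHen v ∧ PerC D k v)} : Set (Vec d)).ncard ≤
        ({v | v ∈ vbox d H ∧ IsHen v ∧ PerK (D ^ k) k v} : Set (Vec d)).ncard := by
      refine Set.ncard_le_ncard ?_ ((Finset.finite_toSet (vbox d H)).subset fun v h => h.1)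
      rintro v ⟨hv, hhen, hper⟩
      exact ⟨hv, hhen, hper.perK⟩
    exact_mod_cast h2
  · set T := H / c₀ with hT
    have hc0 : 0 < c₀ := by omega
    have hTH : c₀ * T ≤ H := Nat.mul_div_le H c₀
    have hT1 : 1 ≤ T := (Nat.one_le_div_iff hc0).mpr hH
    have hHT : H < c₀ * (T + 1) := by
      have := Nat.lt_mul_div_succ H hc0
      rwa [← hT] at this
    have hc0R : (0 : ℝ) < c₀ := by exact_mod_cast hc0
    have hT2 : (1 / (2 * c₀ : ℝ)) * H ≤ T := by
      rw [one_div, inv_mul_le_iff₀ (by positivity)]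
      have h1 : (H : ℝ) ≤ c₀ * (T + 1) := by exact_mod_cast hHT.le
      have h2 : (1 : ℝ) ≤ T := by exact_mod_cast hT1
      nlinarith
    rw [← mul_pow]
    have hmain : T ^ (d + 3 - ek k) ≤
        ({v | v ∈ vbox d H ∧ (IsHen v ∧ PerC 1 k v)} : Set (Vec d)).ncard := by
      rcases le_total k (Nat.sqrt (k - 1) + 2) with h1 | h1
      · have h2 : ek k = k := min_eq_left h1
        rw [h2]
        refine lowA hkd hd2 (le_trans (Nat.mul_le_mul_right _ ?_) hTH)
        omega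
      · have h2 : ek k = m + 1 := min_eq_right h1
        rw [h2]
        have h3 : d + 3 - (m + 1) = d + 2 - m := by omega
        rw [h3]
        refine lowB (by omega) (by omega) hd2 hkm (le_trans (Nat.mul_le_mul_right _ ?_) hTH)
        omega
    calc ((1 / (2 * c₀ : ℝ)) * H) ^ (d + 3 - ek k) ≤ (T : ℝ) ^ (d + 3 - ek k) :=
          pow_le_pow_left₀ (by positivity) hT2 _
      _ ≤ _ := by exact_mod_cast hmain

end Pool.Agent.R414.EB
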